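import Mathlib

namespace Pool.Agent.Results.MP_04ae81_co.TolRep

open Finset

/-- `G` is a tolerance graph: vertex `v` has the interval `[l v, r v]` and tolerance `t v > 0`;
the length of `[l v, r v] ∩ [l w, r w]` is `max 0 (min (r v) (r w) - max (l v) (l w))`. -/
def IsTolerance {n : ℕ} (G : SimpleGraph (Fin n)) : Prop :=
  ∃ l r t : Fin n → ℝ, (∀ v, l v ≤ r v) ∧ (∀ v, 0 < t v) ∧ ∀ v w, v ≠ w →
    (G.Adj v w ↔ min (t v) (t w) ≤ max 0 (min (r v) (r w) - max (l v) (l w)))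

noncomputable def rank (X : Finset ℝ) (x : ℝ) : ℕ := (X.filter (· < x)).card

theorem rank_le (X : Finset ℝ) {x y : ℝ} (hy : y ∈ X) : rank X x ≤ rank X y ↔ x ≤ y := by
  constructor
  · intro h
    by_contra hlt
    push Not at hlt
    refine absurd h (not_le.2 (card_lt_card ⟨fun z hz => ?_, fun hz => ?_⟩))
    · exact mem_filter.2 ⟨(mem_filter.1 hz).1, (mem_filter.1 hz).2.trans hlt⟩
    · exact lt_irrefl _ (mem_filter.1 (hz (mem_filter.2 ⟨hy, hlt⟩))).2
  · intro h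
    exact card_le_card fun z hz =>
      mem_filter.2 ⟨(mem_filter.1 hz).1, (mem_filter.1 hz).2.trans_le h⟩

theorem rank_lt (X : Finset ℝ) {y : ℝ} (hy : y ∈ X) : rank X y < X.card :=
  card_lt_card ⟨filter_subset _ _, fun h => lt_irrefl _ (mem_filter.1 (h hy)).2⟩

def enc (a b c d e f : ℕ) : ℕ+ :=
  (Nat.pair (Nat.pair (Nat.pair a b) (Nat.pair c d)) (Nat.pair e f)).succPNat

def half (x y : ℕ+) : Bool :=
  decide (x.natPred.unpair.2.unpair.2 ≤ x.natPred.unpair.2.unpair.1 ∧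
    y.natPred.unpair.1.unpair.1.unpair.1 ≤ x.natPred.unpair.1.unpair.2.unpair.1 ∧
    x.natPred.unpair.1.unpair.2.unpair.2 ≤ y.natPred.unpair.1.unpair.1.unpair.2 ∧
    x.natPred.unpair.2.unpair.2 ≤ y.natPred.unpair.2.unpair.1)

theorem pair_lt {a b M : ℕ} (ha : a < M) (hb : b < M) : Nat.pair a b < M ^ 2 :=
  (Nat.pair_lt_max_add_one_sq a b).trans_le (Nat.pow_le_pow_left (by omega) 2)

theorem enc_le {a b c d e f M : ℕ} (ha : a < M) (hb : b < M) (hc : c < M) (hd : d < M)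
    (he : e < M) (hf : f < M) : (enc a b c d e f : ℕ) ≤ M ^ 8 := by
  have h1 := pair_lt (pair_lt ha hb) (pair_lt hc hd)
  have h2 : Nat.pair e f < (M ^ 2) ^ 2 :=
    (pair_lt he hf).trans_le (Nat.le_self_pow (by norm_num) _)
  have h3 := pair_lt h1 h2
  rw [← pow_mul, ← pow_mul] at h3
  exact h3

theorem result : ∃ (A : ℕ+ → ℕ+ → Bool) (k : ℕ), (∀ x y, A x y = A y x) ∧ 1 ≤ k ∧
    ∀ (n : ℕ) (G : SimpleGraph (Fin n)), IsTolerance G →
      ∃ ℓ : Fin n → ℕ+, (∀ v, (ℓ v : ℕ) ≤ n ^ k) ∧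
        ∀ v w, v ≠ w → (G.Adj v w ↔ A (ℓ v) (ℓ w) = true) := by
  classical
  refine ⟨fun x y => half x y || half y x, 32, fun x y => Bool.or_comm _ _, by norm_num, ?_⟩
  rintro n G ⟨l, r, t, -, ht, h⟩
  by_cases hn : n ≤ 1
  · refine ⟨fun _ => 1, fun v => Nat.one_le_pow _ _ v.pos, fun v w hvw => ?_⟩
    exact absurd (Fin.ext (by omega)) hvw
  let F : Fin n × Fin 6 → ℝ := fun p =>
    ![l p.1, r p.1, r p.1 - t p.1, l p.1 + t p.1, r p.1 - l p.1, t p.1] p.2
  let X : Finset ℝ := univ.image F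
  have hX : ∀ p, F p ∈ X := fun p => mem_image_of_mem _ (mem_univ p)
  have hc : X.card ≤ n * 6 := card_image_le.trans (by simp)
  have hb : ∀ p, rank X (F p) < n * 6 := fun p => (rank_lt X (hX p)).trans_le hc
  refine ⟨fun v => enc (rank X (F (v, 0))) (rank X (F (v, 1))) (rank X (F (v, 2)))
    (rank X (F (v, 3))) (rank X (F (v, 4))) (rank X (F (v, 5))), fun v => ?_, fun v w hvw => ?_⟩
  · refine (enc_le (hb _) (hb _) (hb _) (hb _) (hb _) (hb _)).trans ?_
    have h8 : 2 ^ 3 ≤ n ^ 3 := Nat.pow_le_pow_left (by omega) 3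
    have : n * 6 ≤ n ^ 4 := by
      rw [pow_succ']
      exact Nat.mul_le_mul_left _ (by omega)
    calc (n * 6) ^ 8 ≤ (n ^ 4) ^ 8 := Nat.pow_le_pow_left this 8
      _ = n ^ 32 := by rw [← pow_mul]
  · rw [h v w hvw]
    simp only [half, enc, Nat.natPred_succPNat, Nat.unpair_pair, rank_le X (hX _),
      Bool.or_eq_true, decide_eq_true_eq]
    have h1 := ht v
    have h2 := ht w
    rw [min_le_iff]
    simp only [F, Matrix.cons_val_zero, Matrix.cons_val_one, Matrix.cons_val,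
      le_max_iff, not_le.2 h1, not_le.2 h2, false_or, le_sub_iff_add_le, le_min_iff,
      add_max, max_le_iff]
    constructor <;> rintro (h | h) <;> [left; right; left; right] <;>
      simp only [add_comm] at h ⊢ <;> tauto

end Pool.Agent.Results.MP_04ae81_co.TolRep
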